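import Mathlib

/-!
# Least deficient multipliers: basic facts
-/

set_option autoImplicit false

namespace Pool.Agent.N357.AP

open Finset

/-- the sum of the positive divisors of `n` -/
def sig (n : ℕ) : ℕ := ∑ d ∈ n.divisors, d

/-- the deficient multipliers of `n` which make it non-deficient -/
def Good (n k : ℕ) : Prop := 0 < k ∧ sig k < 2 * k ∧ 2 * (k * n) ≤ sig (k * n)

/-- the least deficient positive integer `k` for which `k n` is non-deficient -/
noncomputable def a (n : ℕ) : ℕ := sInf {k | Good n k}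

/-- almost perfect numbers: `σ(k) = 2 k - 1` -/
def AlmostPerfect (k : ℕ) : Prop := 0 < k ∧ sig k + 1 = 2 * k

theorem sig_mul_le (k n : ℕ) : sig (k * n) ≤ sig k * sig n := by
  unfold sig
  rw [Nat.divisors_mul, sum_mul_sum, ← sum_product']
  rw [Finset.mul_def]
  have h := sum_image_le_of_nonneg (s := k.divisors ×ˢ n.divisors)
    (g := fun p : ℕ × ℕ => p.1 * p.2) (f := fun x : ℕ => x) (fun u _ => Nat.zero_le u)
  exact h

theorem sig_mul {k n : ℕ} (h : Nat.Coprime k n) : sig (k * n) = sig k * sig n :=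
  Nat.Coprime.sum_divisors_mul h

theorem sig_two_pow (j : ℕ) : sig (2 ^ j) + 1 = 2 ^ (j + 1) := by
  unfold sig
  rw [Nat.divisors_prime_pow Nat.prime_two, sum_map]
  have : ∀ k : ℕ, ∑ i ∈ range (k + 1), 2 ^ i + 1 = 2 ^ (k + 1) := by
    intro k
    induction k with
    | zero => simp
    | succ k ih => rw [sum_range_succ, pow_succ 2 (k + 1)]; omega
  exact this j

theorem sig_prime {p : ℕ} (hp : p.Prime) : sig p = p + 1 := by
  unfold sig
  rw [hp.sum_divisors]

theorem sig_ge {n : ℕ} (hn : 2 ≤ n) : n + 1 ≤ sig n := by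
  unfold sig
  have h : ({1, n} : Finset ℕ) ⊆ n.divisors := by
    intro x hx
    simp only [mem_insert, mem_singleton] at hx
    rw [Nat.mem_divisors]
    rcases hx with rfl | rfl
    · exact ⟨one_dvd _, by omega⟩
    · exact ⟨dvd_rfl, by omega⟩
  have h1 := sum_le_sum_of_subset (f := fun d : ℕ => d) h
  rw [sum_pair (by omega)] at h1
  omega

theorem sig_ge_of_dvd {n d : ℕ} (hd : d ∣ n) (h1 : 1 < d) (h2 : d < n) : n + d + 1 ≤ sig n := by
  unfold sig
  have h : ({1, d, n} : Finset ℕ) ⊆ n.divisors := by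
    intro x hx
    simp only [mem_insert, mem_singleton] at hx
    rw [Nat.mem_divisors]
    rcases hx with rfl | rfl | rfl
    · exact ⟨one_dvd _, by omega⟩
    · exact ⟨hd, by omega⟩
    · exact ⟨dvd_rfl, by omega⟩
  have h3 := sum_le_sum_of_subset (f := fun d : ℕ => d) h
  rw [sum_insert (by simp; omega), sum_pair (by omega)] at h3
  omega

/-- multiples of `6` are non-deficient -/
theorem sig_six {t : ℕ} (ht : 0 < t) : 2 * (6 * t) ≤ sig (6 * t) := by
  unfold sig
  have h : ({t, 2 * t, 3 * t, 6 * t} : Finset ℕ) ⊆ (6 * t).divisors := by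
    intro x hx
    simp only [mem_insert, mem_singleton] at hx
    rw [Nat.mem_divisors]
    refine ⟨?_, by omega⟩
    rcases hx with rfl | rfl | rfl | rfl
    · exact ⟨6, by ring⟩
    · exact ⟨3, by ring⟩
    · exact ⟨2, by ring⟩
    · exact dvd_rfl
  have h3 := sum_le_sum_of_subset (f := fun d : ℕ => d) h
  rw [sum_insert (by simp; omega), sum_insert (by simp; omega), sum_pair (by omega)] at h3
  omega

theorem sig_one : sig 1 = 1 := by decide
theorem sig_two : sig 2 = 3 := by decide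
theorem sig_three : sig 3 = 4 := by decide
theorem sig_four : sig 4 = 7 := by decide

theorem good_a {n k : ℕ} (h : Good n k) : Good n (a n) := Nat.sInf_mem (⟨k, h⟩ : {k | Good n k}.Nonempty)

theorem a_le {n k : ℕ} (h : Good n k) : a n ≤ k := Nat.sInf_le h

/-- even numbers -/
theorem even_le_three {n : ℕ} (hn : 2 ≤ n) (he : n % 2 = 0) : Good n 3 := by
  obtain ⟨t, ht⟩ : ∃ t, n = 2 * t := ⟨n / 2, by omega⟩
  refine ⟨by norm_num, by rw [sig_three]; norm_num, ?_⟩
  have : 3 * n = 6 * t := by omega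
  rw [this]
  exact sig_six (by omega)

/-- a power of two is good for an odd number -/
theorem pow_good_iff {n j : ℕ} (ho : n % 2 = 1) :
    Good n (2 ^ j) ↔ 2 ^ (j + 1) * n ≤ (2 ^ (j + 1) - 1) * sig n := by
  have hcop : Nat.Coprime (2 ^ j) n := by
    apply Nat.Coprime.pow_left
    rw [Nat.coprime_two_left]
    exact Nat.odd_iff.2 ho
  have h1 := sig_two_pow j
  have h2 : 2 * 2 ^ j = 2 ^ (j + 1) := by rw [pow_succ]; ring
  have h3 : sig (2 ^ j) = 2 ^ (j + 1) - 1 := by omega
  unfold Good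
  rw [sig_mul hcop, h3, ← mul_assoc, h2]
  constructor
  · exact fun h => h.2.2
  · intro h
    have := Nat.pos_of_ne_zero (pow_ne_zero (j + 1) (two_ne_zero (α := ℕ)))
    exact ⟨by positivity, by omega, h⟩

theorem pow_good_of_le {n j : ℕ} (ho : n % 2 = 1) (hn : 2 ≤ n) (h : n + 1 ≤ 2 ^ (j + 1)) :
    Good n (2 ^ j) := by
  rw [pow_good_iff ho]
  have h1 := sig_ge hn
  obtain ⟨T, hT⟩ : ∃ T, 2 ^ (j + 1) = T + 1 := ⟨2 ^ (j + 1) - 1, by omega⟩
  rw [hT] at h ⊢
  rw [Nat.add_sub_cancel]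
  calc (T + 1) * n = T * n + n := by ring
    _ ≤ T * n + T := by omega
    _ = T * (n + 1) := by ring
    _ ≤ T * sig n := Nat.mul_le_mul_left _ h1

theorem exists_pow_good {n : ℕ} (ho : n % 2 = 1) (hn : 2 ≤ n) : ∃ j, Good n (2 ^ j) := by
  refine ⟨n, pow_good_of_le ho hn ?_⟩
  have := Nat.lt_two_pow_self (n := n + 1)
  omega

/-- If `k` is good and `σ(k) ≤ 2 k - 2`, the largest power of two below `k` is good. -/
theorem pow_good_of_good {n k : ℕ} (ho : n % 2 = 1) (hk : Good n k) (h2 : sig k + 2 ≤ 2 * k) :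
    ∃ j, 2 ^ j ≤ k ∧ Good n (2 ^ j) := by
  obtain ⟨hk0, -, hk2⟩ := hk
  refine ⟨Nat.log 2 k, Nat.pow_log_le_self 2 (by omega), ?_⟩
  rw [pow_good_iff ho]
  have hlt : k < 2 ^ (Nat.log 2 k + 1) := Nat.lt_pow_succ_log_self (by norm_num) k
  obtain ⟨T, hT⟩ : ∃ T, 2 ^ (Nat.log 2 k + 1) = T + 1 := ⟨2 ^ (Nat.log 2 k + 1) - 1, by omega⟩
  rw [hT] at hlt ⊢
  rw [Nat.add_sub_cancel]
  have h3 : 2 * (k * n) ≤ (2 * k - 2) * sig n := by
    calc 2 * (k * n) ≤ sig (k * n) := hk2
      _ ≤ sig k * sig n := sig_mul_le k n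
      _ ≤ (2 * k - 2) * sig n := Nat.mul_le_mul_right _ (by omega)
  obtain ⟨l, rfl⟩ : ∃ l, k = l + 1 := ⟨k - 1, by omega⟩
  have h4 : 2 * (l + 1) - 2 = 2 * l := by omega
  rw [h4] at h3
  have h5 : (l + 1) * n ≤ l * sig n := by nlinarith
  have hl : l ≤ T := by omega
  -- `n ≤ l (σ n - n)`
  have h6 : n ≤ sig n := by
    by_contra hcon
    have : l * sig n ≤ l * n := Nat.mul_le_mul_left _ (by omega)
    have h7 : n = 0 := by
      have : (l + 1) * n = l * n + n := by ring
      omega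
    omega
  obtain ⟨e, he⟩ : ∃ e, sig n = n + e := ⟨sig n - n, by omega⟩
  rw [he] at h5 ⊢
  have h7 : n ≤ l * e := by nlinarith
  have h8 : l * e ≤ T * e := Nat.mul_le_mul_right _ hl
  nlinarith

theorem almost_two_pow (j : ℕ) : AlmostPerfect (2 ^ j) := by
  refine ⟨by positivity, ?_⟩
  rw [sig_two_pow, pow_succ]; ring

/-- For odd `n` the least deficient multiplier is almost perfect. -/
theorem a_odd {n : ℕ} (ho : n % 2 = 1) (hn : 2 ≤ n) : AlmostPerfect (a n) := by
  obtain ⟨j, hj⟩ := exists_pow_good ho hn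
  have hg := good_a hj
  by_cases h : sig (a n) + 2 ≤ 2 * a n
  · obtain ⟨i, hi, hgi⟩ := pow_good_of_good ho hg h
    have h1 := a_le hgi
    have h2 : a n = 2 ^ i := le_antisymm h1 hi
    rw [h2]
    exact almost_two_pow i
  · exact ⟨hg.1, by have := hg.2.1; omega⟩

/-- For even `n` it is `1`, `2` or `3`. -/
theorem a_even {n : ℕ} (he : n % 2 = 0) (hn : 2 ≤ n) : a n = 3 ∨ AlmostPerfect (a n) := by
  have h := even_le_three hn he
  have h1 := a_le h
  have h2 := (good_a h).1
  rcases (show a n = 1 ∨ a n = 2 ∨ a n = 3 by omega) with h3 | h3 | h3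
  · right; rw [h3]; exact almost_two_pow 0
  · right; rw [h3]; exact almost_two_pow 1
  · left; exact h3

theorem a_two : a 2 = 3 := by
  have h := even_le_three (n := 2) le_rfl rfl
  have h1 := a_le h
  have h2 := good_a h
  rcases (show a 2 = 1 ∨ a 2 = 2 ∨ a 2 = 3 by have := h2.1; omega) with h3 | h3 | h3
  · exfalso
    rw [h3] at h2
    have := h2.2.2
    rw [one_mul, sig_two] at this
    omega
  · exfalso
    rw [h3] at h2
    have := h2.2.2
    rw [show 2 * 2 = 4 from rfl, sig_four] at this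
    omega
  · exact h3

theorem a_six : a 6 = 1 := by
  have h : Good 6 1 := ⟨by norm_num, by rw [sig_one]; norm_num, by
    have := sig_six (t := 1) (by norm_num)
    simpa using this⟩
  have h1 := a_le h
  have h2 := (good_a h).1
  omega

end Pool.Agent.N357.AP
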