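import Pool.Agent.N357.AP.Basic

set_option autoImplicit false

open Filter Finset

namespace Pool.Agent.N357.AP

/-- the product of the primes in `(N, N + i]` -/
def g (N : ℕ) : ℕ → ℕ
  | 0 => 1
  | i + 1 => if (N + i + 1).Prime then g N i * (N + i + 1) else g N i

theorem g_pos (N i : ℕ) : 0 < g N i := by
  induction i with
  | zero => simp [g]
  | succ i ih =>
    rw [g]
    split_ifs
    · positivity
    · exact ih

theorem g_prime (N i : ℕ) {q : ℕ} (hq : q.Prime) (h : q ∣ g N i) : N < q ∧ q ≤ N + i := by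
  induction i with
  | zero =>
    simp only [g] at h
    exact absurd (Nat.dvd_one.1 h) hq.one_lt.ne'
  | succ i ih =>
    rw [g] at h
    split_ifs at h with hp
    · rcases (hq.dvd_mul).1 h with h1 | h1
      · have := ih h1; omega
      · have := (Nat.prime_dvd_prime_iff_eq hq hp).1 h1
        omega
    · have := ih h; omega

theorem g_cop (N i : ℕ) (hp : (N + i + 1).Prime) : Nat.Coprime (g N i) (N + i + 1) := by
  rw [Nat.coprime_comm, hp.coprime_iff_not_dvd]
  intro h
  have := (g_prime N i hp h).2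
  omega

/-- the abundancy index -/
noncomputable def r (n : ℕ) : ℝ := (sig n : ℝ) / n

theorem r_step_prime (N i : ℕ) (hp : (N + i + 1).Prime) :
    r (g N (i + 1)) = r (g N i) * (1 + 1 / ((N + i + 1 : ℕ) : ℝ)) := by
  have h0 : (g N i : ℝ) ≠ 0 := by exact_mod_cast (g_pos N i).ne'
  have h1 : ((N + i + 1 : ℕ) : ℝ) ≠ 0 := by exact_mod_cast (show N + i + 1 ≠ 0 by omega)
  have e : g N (i + 1) = g N i * (N + i + 1) := by rw [g, if_pos hp]
  unfold r
  rw [e, sig_mul (g_cop N i hp), sig_prime hp]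
  push_cast
  push_cast at h1
  field_simp

theorem r_step_not (N i : ℕ) (hp : ¬ (N + i + 1).Prime) : r (g N (i + 1)) = r (g N i) := by
  rw [g, if_neg hp]

noncomputable def ind (n : ℕ) : ℝ := Set.indicator {p : ℕ | p.Prime} (fun n : ℕ => (1 : ℝ) / n) n

theorem ind_nonneg (n : ℕ) : 0 ≤ ind n := by
  unfold ind
  exact Set.indicator_nonneg (fun x _ => by positivity) n

theorem r_lower (N i : ℕ) : 1 + ∑ j ∈ range i, ind (j + (N + 1)) ≤ r (g N i) := by
  induction i with
  | zero =>
    simp [g, r, sig_one]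
  | succ i ih =>
    rw [sum_range_succ]
    have h1 : 1 ≤ r (g N i) := by
      have : 0 ≤ ∑ j ∈ range i, ind (j + (N + 1)) := sum_nonneg fun j _ => ind_nonneg _
      linarith
    have e : i + (N + 1) = N + i + 1 := by ring
    rw [e]
    by_cases hp : (N + i + 1).Prime
    · rw [r_step_prime N i hp]
      have h2 : ind (N + i + 1) = 1 / ((N + i + 1 : ℕ) : ℝ) := by
        unfold ind
        rw [Set.indicator_of_mem (show (N + i + 1) ∈ {p : ℕ | p.Prime} from hp)]
      rw [h2]
      have h3 : (0 : ℝ) ≤ 1 / ((N + i + 1 : ℕ) : ℝ) := by positivity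
      nlinarith
    · rw [r_step_not N i hp]
      have h2 : ind (N + i + 1) = 0 := by
        unfold ind
        rw [Set.indicator_of_notMem (show (N + i + 1) ∉ {p : ℕ | p.Prime} from hp)]
      rw [h2]
      linarith

theorem r_unbounded (N : ℕ) (c : ℝ) : ∃ i, c ≤ r (g N i) := by
  have h : ¬ Summable (fun j => ind (j + (N + 1))) := by
    rw [summable_nat_add_iff (N + 1)]
    exact not_summable_one_div_on_primes
  have h2 := (not_summable_iff_tendsto_nat_atTop_of_nonneg (fun j => ind_nonneg _)).1 h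
  obtain ⟨i, hi⟩ := (h2.eventually_ge_atTop c).exists
  exact ⟨i, by have := r_lower N i; linarith⟩

theorem density {c d : ℝ} (hc : 1 < c) (hcd : c < d) (N₀ : ℕ) :
    ∃ n : ℕ, 2 ≤ n ∧ (∀ q : ℕ, q.Prime → q ∣ n → N₀ < q) ∧ c * n ≤ sig n ∧
      (sig n : ℝ) < d * n := by
  classical
  obtain ⟨N₁, hN₁⟩ := exists_nat_ge (c / (d - c))
  set N := max N₀ N₁ with hN
  have hex := r_unbounded N c
  set i := Nat.find hex with hi
  have h1 : c ≤ r (g N i) := Nat.find_spec hex
  have hi0 : i ≠ 0 := by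
    intro h0
    rw [h0] at h1
    simp [g, r, sig_one] at h1
    linarith
  obtain ⟨l, hl⟩ : ∃ l, i = l + 1 := ⟨i - 1, by omega⟩
  have h2 : r (g N l) < c := by
    have := Nat.find_min hex (m := l) (by omega)
    linarith [not_le.1 this]
  have hp : (N + l + 1).Prime := by
    by_contra hcon
    rw [hl, r_step_not N l hcon] at h1
    linarith
  have h3 : r (g N i) < d := by
    rw [hl, r_step_prime N l hp]
    have h4 : ((N₁ : ℝ)) ≤ ((N + l + 1 : ℕ) : ℝ) := by
      have : N₁ ≤ N + l + 1 := by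
        have := le_max_right N₀ N₁
        omega
      exact_mod_cast this
    have hdc : 0 < d - c := by linarith
    have h5 : c / (d - c) ≤ ((N + l + 1 : ℕ) : ℝ) := hN₁.trans h4
    have h6 : (0 : ℝ) < ((N + l + 1 : ℕ) : ℝ) := by positivity
    have h7 : c ≤ ((N + l + 1 : ℕ) : ℝ) * (d - c) := (div_le_iff₀ hdc).1 h5
    have h8 : c * (1 / ((N + l + 1 : ℕ) : ℝ)) ≤ d - c := by
      rw [mul_one_div, div_le_iff₀ h6]
      linarith
    have h9 : (0 : ℝ) < 1 + 1 / ((N + l + 1 : ℕ) : ℝ) := by positivity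
    have h10 : r (g N l) * (1 + 1 / ((N + l + 1 : ℕ) : ℝ)) <
        c * (1 + 1 / ((N + l + 1 : ℕ) : ℝ)) := mul_lt_mul_of_pos_right h2 h9
    linarith
  have hg : (0 : ℝ) < (g N i : ℝ) := by exact_mod_cast g_pos N i
  have hr : (sig (g N i) : ℝ) = r (g N i) * (g N i : ℝ) := by
    unfold r
    field_simp
  refine ⟨g N i, ?_, ?_, ?_, ?_⟩
  · have h4 := g_pos N i
    by_contra hcon
    have h5 : g N i = 1 := by omega
    rw [h5] at h1
    simp [r, sig_one] at h1
    linarith
  · intro q hq hqd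
    have := (g_prime N i hq hqd).1
    have := le_max_left N₀ N₁
    omega
  · rw [hr]
    exact mul_le_mul_of_nonneg_right h1 hg.le
  · rw [hr]
    exact mul_lt_mul_of_pos_right h3 hg

/-- Every almost perfect number is the least deficient multiplier of some `n ≥ 2`. -/
theorem exists_a_eq {k : ℕ} (hk : AlmostPerfect k) : ∃ n, 2 ≤ n ∧ a n = k := by
  obtain ⟨hk0, hk1⟩ := hk
  rcases (show k = 1 ∨ 2 ≤ k by omega) with h1 | h2
  · subst h1
    exact ⟨6, by norm_num, a_six⟩
  · obtain ⟨l, rfl⟩ : ∃ l, k = l + 2 := ⟨k - 2, by omega⟩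
    -- `c = 2k/(2k-1)`, `d = (2k-2)/(2k-3)`
    have hl : (0 : ℝ) ≤ (l : ℝ) := by positivity
    have hA : (0 : ℝ) < 2 * (l : ℝ) + 3 := by linarith
    have hB : (0 : ℝ) < 2 * (l : ℝ) + 1 := by linarith
    have hc : (1 : ℝ) < (2 * (l : ℝ) + 4) / (2 * l + 3) := by
      rw [lt_div_iff₀ hA]; linarith
    have hcd : (2 * (l : ℝ) + 4) / (2 * l + 3) < (2 * (l : ℝ) + 2) / (2 * l + 1) := by
      rw [div_lt_div_iff₀ hA hB]
      nlinarith
    obtain ⟨n, hn2, hn3, hn4, hn5⟩ := density hc hcd (l + 2)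
    have hn0 : (0 : ℝ) < (n : ℝ) := by exact_mod_cast (show 0 < n by omega)
    have h6 : (2 * (l : ℝ) + 4) * n ≤ (2 * l + 3) * sig n := by
      have h7 := mul_le_mul_of_nonneg_left hn4 hA.le
      have e : (2 * (l : ℝ) + 3) * ((2 * (l : ℝ) + 4) / (2 * l + 3) * n) = (2 * l + 4) * n := by
        field_simp
      linarith
    have h7 : (2 * (l : ℝ) + 1) * sig n < (2 * l + 2) * n := by
      have h8 := mul_lt_mul_of_pos_left hn5 hB
      have e : (2 * (l : ℝ) + 1) * ((2 * (l : ℝ) + 2) / (2 * l + 1) * n) = (2 * l + 2) * n := by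
        field_simp
      linarith
    have h6' : (2 * l + 4) * n ≤ (2 * l + 3) * sig n := by exact_mod_cast h6
    have h7' : (2 * l + 1) * sig n < (2 * l + 2) * n := by exact_mod_cast h7
    have hcop : Nat.Coprime (l + 2) n := by
      rw [Nat.coprime_iff_gcd_eq_one]
      by_contra hne
      obtain ⟨q, hq, hqd⟩ := Nat.exists_prime_and_dvd hne
      have h8 := hn3 q hq (hqd.trans (Nat.gcd_dvd_right _ _))
      have h9 := Nat.le_of_dvd (by omega) (hqd.trans (Nat.gcd_dvd_left _ _))
      omega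
    have hgood : Good n (l + 2) := by
      refine ⟨hk0, by omega, ?_⟩
      rw [sig_mul hcop]
      have h8 : sig (l + 2) = 2 * l + 3 := by omega
      rw [h8]
      calc 2 * ((l + 2) * n) = (2 * l + 4) * n := by ring
        _ ≤ _ := h6'
    refine ⟨n, hn2, ?_⟩
    apply le_antisymm (a_le hgood)
    by_contra hcon
    have hlt : a n < l + 2 := by omega
    obtain ⟨g1, g2, g3⟩ := good_a hgood
    obtain ⟨x, hx⟩ : ∃ x, a n = x + 1 := ⟨a n - 1, by omega⟩
    rw [hx] at g1 g2 g3 hlt
    have h8 : 2 * ((x + 1) * n) ≤ (2 * x + 1) * sig n := by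
      calc 2 * ((x + 1) * n) ≤ sig ((x + 1) * n) := g3
        _ ≤ sig (x + 1) * sig n := sig_mul_le _ _
        _ ≤ (2 * x + 1) * sig n := Nat.mul_le_mul_right _ (by omega)
    obtain ⟨y, rfl⟩ : ∃ y, l = x + y := ⟨l - x, by omega⟩
    have h9 : sig n < 2 * n := by
      by_contra hcon2
      have : 2 * n ≤ sig n := by omega
      nlinarith
    nlinarith

end Pool.Agent.N357.AP
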